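import Pool.Agent.Y262.QE.Stm

set_option autoImplicit false

/-!
QE-MEAS: almost every parameter has sparse windows.
-/

namespace Pool.Agent.Y936.QE

open MeasureTheory Filter Topology Set Pool.Agent.Y262.QE
open scoped ENNReal NNReal

theorem log_ratio (m r : ℝ) (hr : 0 < r) (hm : 2 * r + 1 ≤ m) :
    Real.log (m + r) - Real.log (m - r) ≤ 4 * r / m := by
  have hm0 : 0 < m := by linarith
  have h1 : 0 < m - r := by linarith
  rw [← Real.log_div (by linarith) h1.ne']
  have h2 := Real.log_le_sub_one_of_pos (x := (m + r) / (m - r)) (div_pos (by linarith) h1)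
  refine h2.trans ?_
  rw [div_sub_one h1.ne', div_le_div_iff₀ h1 hm0]
  nlinarith

theorem meas_aux (hOne : StOne) (E : ℕ → ℝ → ℝ) (K : ℝ≥0)
    (hanti : ∀ j, Antitone (E j))
    (hLip : ∀ j, LipschitzWith K (fun s => Real.log (E j s)))
    (hlanti : ∀ j, Antitone (fun s => Real.log (E j s)))
    (R C c r : ℝ) (hC : 0 ≤ C) (hc : 0 < c) (hr : 0 < r) (J0 : ℕ)
    (hcount : ∀ s, |s| ≤ R → ∀ (j : ℕ) (lam : ℝ), 1 ≤ lam → E j s ≤ lam →
      (j + 1 : ℝ) ≤ C * lam) :
    ∀ᵐ s : ℝ, (|s| ≤ R ∧ ∀ j, J0 ≤ j → deriv (fun s => Real.log (E j s)) s ≤ -c) →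
      ∃ B : ℕ, ∃ᶠ n : ℕ in atTop, {j | |E j s - ((n : ℝ) + 1) ^ 2| ≤ r}.encard ≤ B := by
  classical
  obtain ⟨T, hTdef⟩ : ∃ T : Set ℝ, T = {s | |s| ≤ R ∧
      ∀ j, J0 ≤ j → deriv (fun s => Real.log (E j s)) s ≤ -c} := ⟨_, rfl⟩
  have hT : MeasurableSet T := by
    have h1 : T = {s | |s| ≤ R} ∩ ⋂ j, ⋂ (_ : J0 ≤ j),
        {s | deriv (fun s => Real.log (E j s)) s ≤ -c} := by
      rw [hTdef]
      ext s
      simp
    rw [h1]
    refine (measurableSet_le continuous_abs.measurable measurable_const).inter ?_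
    exact MeasurableSet.iInter fun j => MeasurableSet.iInter fun _ =>
      measurableSet_le (measurable_deriv _) measurable_const
  obtain ⟨A, hAdef⟩ : ∃ A : ℕ → ℕ → Set ℝ, A = fun (n j : ℕ) =>
      {s | |E j s - ((n : ℝ) + 1) ^ 2| ≤ r} := ⟨_, rfl⟩
  have hAm : ∀ n j s, s ∈ A n j ↔ |E j s - ((n : ℝ) + 1) ^ 2| ≤ r := by
    intro n j s
    rw [hAdef]
    rfl
  have hA : ∀ n j, MeasurableSet (A n j) := by
    intro n j
    rw [hAdef]
    exact measurableSet_le (continuous_abs.measurable.comp ((hanti j).measurable.sub_const _))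
      measurable_const
  obtain ⟨G, hGdef⟩ : ∃ G : ℕ → Finset ℕ, G = fun (n : ℕ) =>
      (Finset.range ⌊2 * C * ((n : ℝ) + 1) ^ 2⌋₊).filter (fun j => J0 ≤ j) := ⟨_, rfl⟩
  have hGm : ∀ n j, j ∈ G n ↔ j < ⌊2 * C * ((n : ℝ) + 1) ^ 2⌋₊ ∧ J0 ≤ j := by
    intro n j
    rw [hGdef]
    simp
  obtain ⟨N, hNdef⟩ : ∃ N : ℕ → ℝ → ℝ≥0∞, N = fun (n : ℕ) (s : ℝ) =>
      ∑ j ∈ G n, (A n j).indicator (1 : ℝ → ℝ≥0∞) s := ⟨_, rfl⟩
  have hNm : ∀ n, Measurable (N n) := by
    intro n
    rw [hNdef]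
    exact Finset.measurable_fun_sum _ fun j _ => measurable_one.indicator (hA n j)
  -- large n
  have hlarge : ∀ᶠ n : ℕ in atTop, 2 * r + 1 ≤ ((n : ℝ) + 1) ^ 2 := by
    filter_upwards [eventually_ge_atTop ⌈2 * r + 1⌉₊] with n hn
    have h1 : 2 * r + 1 ≤ (n : ℝ) := (Nat.le_ceil _).trans (by exact_mod_cast hn)
    nlinarith
  -- the integral
  have hint : ∀ᶠ n : ℕ in atTop, ∫⁻ s in T, N n s ≤ ENNReal.ofReal (8 * C * r / c) := by
    filter_upwards [hlarge] with n hn
    obtain ⟨m, hm⟩ : ∃ m : ℝ, m = ((n : ℝ) + 1) ^ 2 := ⟨_, rfl⟩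
    rw [← hm] at hn
    have hm0 : 0 < m := by linarith
    have h1 : ∀ j ∈ G n, ∫⁻ s in T, (A n j).indicator (1 : ℝ → ℝ≥0∞) s ≤
        ENNReal.ofReal (4 * r / m / c) := by
      intro j hj
      rw [lintegral_indicator_one (hA n j), Measure.restrict_apply (hA n j)]
      have h2 := hOne (fun s => Real.log (E j s)) K (hLip j) (hlanti j) c hc T hT
        (fun s hs => by
          rw [hTdef] at hs
          exact hs.2 j ((hGm n j).1 hj).2) (Real.log (m - r)) (Real.log (m + r))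
        (Real.log_le_log (by linarith) (by linarith))
      refine (measure_mono ?_).trans (h2.trans (ENNReal.ofReal_le_ofReal ?_))
      · intro s hs
        refine ⟨hs.2, ?_⟩
        have h3 := (hAm n j s).1 hs.1
        rw [← hm, abs_le] at h3
        exact ⟨Real.log_le_log (by linarith) (by linarith),
          Real.log_le_log (by linarith) (by linarith)⟩
      · exact div_le_div_of_nonneg_right (log_ratio m r hr hn) hc.le
    have h2 : ∫⁻ s in T, N n s = ∑ j ∈ G n, ∫⁻ s in T, (A n j).indicator (1 : ℝ → ℝ≥0∞) s := by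
      rw [hNdef]
      exact lintegral_finsetSum _ fun j _ => measurable_one.indicator (hA n j)
    rw [h2]
    refine (Finset.sum_le_card_nsmul _ _ _ h1).trans ?_
    rw [nsmul_eq_mul, ← ENNReal.ofReal_natCast, ← ENNReal.ofReal_mul (Nat.cast_nonneg _)]
    apply ENNReal.ofReal_le_ofReal
    have h3 : ((G n).card : ℝ) ≤ 2 * C * m := by
      have h4 : (G n).card ≤ ⌊2 * C * ((n : ℝ) + 1) ^ 2⌋₊ := by
        rw [hGdef]
        exact (Finset.card_filter_le _ _).trans (by rw [Finset.card_range])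
      have h5 : ((G n).card : ℝ) ≤ (⌊2 * C * ((n : ℝ) + 1) ^ 2⌋₊ : ℝ) := by exact_mod_cast h4
      rw [← hm] at h5
      exact h5.trans (Nat.floor_le (by positivity))
    calc ((G n).card : ℝ) * (4 * r / m / c) ≤ 2 * C * m * (4 * r / m / c) :=
          mul_le_mul_of_nonneg_right h3 (by positivity)
      _ = 8 * C * r / c := by
          field_simp
          ring
  have hfat : ∫⁻ s in T, liminf (fun n => N n s) atTop ≠ ∞ := by
    have h1 := lintegral_liminf_le (μ := volume.restrict T) (u := atTop) hNm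
    have h2 : liminf (fun n => ∫⁻ s in T, N n s) atTop ≤ ENNReal.ofReal (8 * C * r / c) := by
      refine (liminf_le_liminf hint).trans ?_
      rw [liminf_const]
    exact ((h1.trans h2).trans_lt ENNReal.ofReal_lt_top).ne
  have hae := ae_lt_top (Measurable.liminf hNm) hfat
  rw [ae_restrict_iff' hT] at hae
  filter_upwards [hae] with s hs hsT
  have hsT' : s ∈ T := by rw [hTdef]; exact hsT
  obtain ⟨B, hB⟩ := ENNReal.exists_nat_gt (hs hsT').ne
  have hfreq := frequently_lt_of_liminf_lt (by isBoundedDefault) hB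
  refine ⟨J0 + B, (hfreq.and_eventually hlarge).mono fun n hn => ?_⟩
  obtain ⟨hn1, hn2⟩ := hn
  obtain ⟨m, hm⟩ : ∃ m : ℝ, m = ((n : ℝ) + 1) ^ 2 := ⟨_, rfl⟩
  have hsub : {j | |E j s - ((n : ℝ) + 1) ^ 2| ≤ r} ⊆
      ((Finset.range J0 ∪ (G n).filter (fun j => s ∈ A n j) : Finset ℕ) : Set ℕ) := by
    intro j hj
    have hj' : |E j s - ((n : ℝ) + 1) ^ 2| ≤ r := hj
    rw [Finset.mem_coe, Finset.mem_union, Finset.mem_range, Finset.mem_filter]
    by_cases hjJ : j < J0
    · exact Or.inl hjJ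
    · right
      refine ⟨(hGm n j).2 ⟨?_, not_lt.1 hjJ⟩, (hAm n j s).2 hj'⟩
      rw [← hm, abs_le] at hj'
      rw [← hm] at hn2
      have h1 := hcount s hsT.1 j (2 * m) (by linarith) (by linarith)
      have h2 : ((j + 1 : ℕ) : ℝ) ≤ 2 * C * m := by
        push_cast
        linarith
      rw [← hm]
      have h3 := Nat.le_floor h2
      omega
  refine (encard_le_encard hsub).trans ?_
  rw [encard_coe_eq_coe_finsetCard]
  have hNs : N n s = (((G n).filter (fun j => s ∈ A n j)).card : ℝ≥0∞) := by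
    rw [hNdef]
    simp only [indicator_apply, Pi.one_apply]
    rw [Finset.sum_boole]
  rw [hNs] at hn1
  have h4 : ((G n).filter (fun j => s ∈ A n j)).card < B := by exact_mod_cast hn1
  have h5 := Finset.card_union_le (Finset.range J0) ((G n).filter (fun j => s ∈ A n j))
  rw [Finset.card_range] at h5
  have h6 : (Finset.range J0 ∪ (G n).filter (fun j => s ∈ A n j)).card ≤ J0 + B := by omega
  exact_mod_cast h6

theorem meas : StOne → StMeas := by
  intro hOne E K hE0 hmono hexp hcnt S hS r hr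
  have hanti : ∀ j, Antitone (E j) := fun j s t hst => hmono j s t hst
  -- positivity everywhere from positivity somewhere
  have hpos : ∀ j s₀, 0 < E j s₀ → ∀ t, 0 < E j t := by
    intro j s₀ h0 t
    rcases le_total s₀ t with h | h
    · have h1 := hexp j s₀ t h
      by_contra hcon
      have h2 : E j t = 0 := le_antisymm (not_lt.1 hcon) (hE0 j t)
      rw [h2, mul_zero] at h1
      linarith
    · exact h0.trans_le (hmono j t s₀ h)
  have hdich : ∀ j, (∀ s, 0 < E j s) ∨ (∀ s, E j s = 0) := by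
    intro j
    by_cases h : ∃ s₀, 0 < E j s₀
    · obtain ⟨s₀, h0⟩ := h
      exact Or.inl (hpos j s₀ h0)
    · push Not at h
      exact Or.inr fun s => le_antisymm (h s) (hE0 j s)
  obtain ⟨K', hK'⟩ : ∃ K' : ℝ≥0, K' = Real.toNNReal K := ⟨_, rfl⟩
  have hKK' : K ≤ K' := by rw [hK']; exact Real.le_coe_toNNReal K
  have hlog : ∀ j s t, s ≤ t → Real.log (E j t) ≤ Real.log (E j s) ∧
      Real.log (E j s) - Real.log (E j t) ≤ K' * (t - s) := by
    intro j s t hst
    have hts : 0 ≤ (K' : ℝ) * (t - s) := mul_nonneg K'.2 (by linarith)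
    rcases hdich j with h | h
    · refine ⟨Real.log_le_log (h t) (hmono j s t hst), ?_⟩
      have h1 := Real.log_le_log (h s) (hexp j s t hst)
      rw [Real.log_mul (Real.exp_pos _).ne' (h t).ne', Real.log_exp] at h1
      have h2 : K * (t - s) ≤ K' * (t - s) := mul_le_mul_of_nonneg_right hKK' (by linarith)
      linarith
    · rw [h s, h t]
      exact ⟨le_rfl, by rw [sub_self]; exact hts⟩
  have hlanti : ∀ j, Antitone (fun s => Real.log (E j s)) := fun j s t hst => (hlog j s t hst).1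
  have hLip : ∀ j, LipschitzWith K' (fun s => Real.log (E j s)) := by
    intro j
    refine LipschitzWith.of_dist_le_mul fun s t => ?_
    rw [Real.dist_eq, Real.dist_eq]
    rcases le_total s t with h | h
    · have h1 := hlog j s t h
      rw [abs_of_nonneg (by linarith), abs_of_nonpos (by linarith)]
      linarith
    · have h1 := hlog j t s h
      rw [abs_of_nonpos (by linarith), abs_of_nonneg (by linarith)]
      linarith
  have hdiff : ∀ᵐ s : ℝ, ∀ j, DifferentiableAt ℝ (fun s => Real.log (E j s)) s := by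
    rw [ae_all_iff]
    intro j
    exact (hLip j).ae_differentiableAt
  choose C hC using fun R : ℕ => hcnt R
  have hmain : ∀ᵐ s : ℝ, ∀ (R N J0 : ℕ), (|s| ≤ (R : ℝ) ∧
      ∀ j, J0 ≤ j → deriv (fun s => Real.log (E j s)) s ≤ -(1 / ((N : ℝ) + 1))) →
      ∃ B : ℕ, ∃ᶠ n : ℕ in atTop, {j | |E j s - ((n : ℝ) + 1) ^ 2| ≤ r}.encard ≤ B := by
    rw [ae_all_iff]
    intro R
    rw [ae_all_iff]
    intro N
    rw [ae_all_iff]
    intro J0
    refine meas_aux hOne E K' hanti hLip hlanti R |C R| (1 / ((N : ℝ) + 1)) r (abs_nonneg _)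
      (by positivity) hr J0 ?_
    intro s hs j lam hlam hEl
    refine (hC R s hs j lam hlam hEl).trans ?_
    exact mul_le_mul_of_nonneg_right (le_abs_self _) (by linarith)
  filter_upwards [hdiff, hmain] with s hs1 hs2 hsS
  obtain ⟨c, J, hc, hJ⟩ := hS s hsS
  obtain ⟨R, hR⟩ := exists_nat_ge |s|
  obtain ⟨N, hN⟩ := exists_nat_one_div_lt hc
  obtain ⟨J1, hJ1⟩ := exists_nat_ge (C R)
  refine hs2 R N (max J J1) ⟨hR, fun j hj => ?_⟩
  have hjJ : J ≤ j := (le_max_left _ _).trans hj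
  have hjJ1 : J1 ≤ j := (le_max_right _ _).trans hj
  have hEpos : 0 < E j s := by
    by_contra hcon
    have h0 : E j s ≤ 1 := (not_lt.1 hcon).trans zero_le_one
    have h1 := hC R s hR j 1 le_rfl h0
    have h2 : (J1 : ℝ) ≤ j := by exact_mod_cast hjJ1
    linarith
  have hEall := hpos j s hEpos
  obtain ⟨δ, hδ, hτ⟩ := hJ j hjJ
  have hder := (hs1 j).hasDerivAt.tendsto_slope_zero_right
  have hbound : ∀ᶠ τ : ℝ in 𝓝[>] 0,
      τ⁻¹ • (Real.log (E j (s + τ)) - Real.log (E j s)) ≤ -c := by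
    have h1 : ∀ᶠ τ : ℝ in 𝓝[>] 0, τ ∈ Ioo 0 δ := Ioo_mem_nhdsGT hδ
    filter_upwards [h1] with τ hτ'
    have h2 := hτ τ hτ'.1 hτ'.2
    have h3 : 0 < E j s * (1 - c * τ) := (hEall (s + τ)).trans_le h2
    have h4 : 0 < 1 - c * τ := pos_of_mul_pos_right h3 hEpos.le
    have h5 := Real.log_le_log (hEall (s + τ)) h2
    rw [Real.log_mul hEpos.ne' h4.ne'] at h5
    have h6 := Real.log_le_sub_one_of_pos h4
    rw [smul_eq_mul, inv_mul_le_iff₀ hτ'.1]
    linarith
  have h7 := le_of_tendsto hder hbound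
  linarith

end Pool.Agent.Y936.QE
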